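import Mathlib

/-!
# Monochromatic infinite sumsets which are large infinitely often

For every `H = o(N)` and every finite colouring of the positive integers there are infinite sets
`B`, `C` with `B + C` monochromatic, `B(N) ≥ H(N)` for infinitely many `N` and `C(N) ≥ H(N)` for
infinitely many `N`.
-/

namespace Pool.Agent.Results.MP_870dc7_co.FastSumsetsInfinitelyOften

open Filter Topology

/-- The counting function `B(N) = |B ∩ {1, …, N}|`. -/
noncomputable def count (B : Set ℕ) (N : ℕ) : ℕ := (B ∩ Set.Icc 1 N).ncard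

/-- `B` and `C` are infinite sets of positive integers and `B + C` has a single colour. -/
def MonoSumset {r : ℕ} (χ : ℕ → Fin r) (B C : Set ℕ) : Prop :=
  B.Infinite ∧ C.Infinite ∧ (∀ b ∈ B, 1 ≤ b) ∧ (∀ c ∈ C, 1 ≤ c) ∧
    ∃ i : Fin r, ∀ b ∈ B, ∀ c ∈ C, χ (b + c) = i

/-- Growth functions: non-decreasing and tending to infinity. -/
def IsGrowth (H : ℕ → ℕ) : Prop := Monotone H ∧ Tendsto H atTop atTop

/-- The property asked for: some 2-colouring is such that whenever `B`, `C` are infinite and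
`B + C` is monochromatic, `max (B(N)) (C(N)) < H(N)` for all but finitely many `N`. -/
def HasSlowColouring (H : ℕ → ℕ) : Prop :=
  ∃ χ : ℕ → Fin 2, ∀ B C : Set ℕ, MonoSumset χ B C →
    ∀ᶠ N in atTop, max (count B N) (count C N) < H N

/-! ### Density-zero sets and an ultrafilter of sets of positive upper density -/

lemma finite_inter (B : Set ℕ) (N : ℕ) : (B ∩ Set.Icc 1 N).Finite :=
  (Set.finite_Icc 1 N).subset Set.inter_subset_right

lemma count_mono {B C : Set ℕ} (h : B ⊆ C) (N : ℕ) : count B N ≤ count C N :=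
  Set.ncard_le_ncard (Set.inter_subset_inter_left _ h) (finite_inter C N)

lemma count_union (B C : Set ℕ) (N : ℕ) : count (B ∪ C) N ≤ count B N + count C N := by
  unfold count
  rw [Set.union_inter_distrib_right]
  exact Set.ncard_union_le _ _

/-- The set has natural density zero. -/
def DensityZero (S : Set ℕ) : Prop := ∀ ε : ℝ, 0 < ε → ∀ᶠ N in atTop, (count S N : ℝ) ≤ ε * N

/-- The filter of sets whose complement has density zero. -/
def densityFilter : Filter ℕ where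
  sets := {A | DensityZero Aᶜ}
  univ_sets := by
    intro ε hε
    filter_upwards with N
    have : count (Set.univᶜ : Set ℕ) N = 0 := by simp [count]
    rw [this]
    push_cast
    positivity
  sets_of_superset := by
    intro A B hA hAB ε hε
    filter_upwards [hA ε hε] with N hN
    refine le_trans ?_ hN
    exact_mod_cast count_mono (Set.compl_subset_compl.2 hAB) N
  inter_sets := by
    intro A B hA hB ε hε
    filter_upwards [hA (ε / 2) (by positivity), hB (ε / 2) (by positivity)] with N h1 h2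
    have h3 : (count (A ∩ B)ᶜ N : ℝ) ≤ count Aᶜ N + count Bᶜ N := by
      rw [Set.compl_inter]
      exact_mod_cast count_union _ _ N
    linarith

lemma count_univ (N : ℕ) : count (Set.univ : Set ℕ) N = N := by
  unfold count
  rw [Set.univ_inter, ← Finset.coe_Icc, Set.ncard_coe_finset, Nat.card_Icc]
  omega

instance : densityFilter.NeBot := by
  constructor
  intro h
  have h1 : (∅ : Set ℕ) ∈ densityFilter := by rw [h]; exact Filter.mem_bot
  have h2 : DensityZero (∅ : Set ℕ)ᶜ := h1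
  have h3 := h2 (1 / 2) (by norm_num)
  obtain ⟨N, hN, hN1⟩ := (h3.and (eventually_ge_atTop 1)).exists
  rw [Set.compl_empty, count_univ] at hN
  have : (1 : ℝ) ≤ N := by exact_mod_cast hN1
  linarith

/-- An ultrafilter all of whose members have positive upper density. -/
noncomputable def dens : Ultrafilter ℕ := Ultrafilter.of densityFilter

lemma not_densityZero {D : Set ℕ} (hD : D ∈ dens) : ¬ DensityZero D := by
  intro h
  have h1 : Dᶜ ∈ densityFilter := by
    change DensityZero Dᶜᶜ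
    rw [compl_compl]
    exact h
  have h2 : Dᶜ ∈ dens := Ultrafilter.of_le densityFilter h1
  have h3 := Filter.inter_mem hD h2
  rw [Set.inter_compl_self] at h3
  exact Ultrafilter.empty_notMem h3

/-- `H = o(N)`. -/
def LittleO (H : ℕ → ℕ) : Prop := ∀ ε : ℝ, 0 < ε → ∀ᶠ N in atTop, (H N : ℝ) ≤ ε * N

lemma exists_large {D : Set ℕ} (hD : D ∈ dens) {H : ℕ → ℕ} (hH : LittleO H) (K : ℕ) :
    ∃ N, K ≤ N ∧ H N ≤ count D N := by
  have h := not_densityZero hD
  unfold DensityZero at h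
  push Not at h
  obtain ⟨ε, hε, hfreq⟩ := h
  have h1 := (hfreq.and_eventually (hH ε hε)).and_eventually (eventually_ge_atTop K)
  obtain ⟨N, ⟨hN1, hN2⟩, hN3⟩ := h1.exists
  refine ⟨N, hN3, ?_⟩
  have : (H N : ℝ) < count D N := lt_of_le_of_lt hN2 hN1
  exact_mod_cast this.le

lemma pos_mem : {n : ℕ | 1 ≤ n} ∈ dens := by
  apply Ultrafilter.of_le densityFilter
  intro ε hε
  filter_upwards with N
  have : count ({n : ℕ | 1 ≤ n}ᶜ : Set ℕ) N = 0 := by
    unfold count
    rw [Set.ncard_eq_zero (finite_inter _ _)]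
    ext x
    constructor
    · rintro ⟨h, h1⟩
      exact (h h1.1).elim
    · intro h
      exact h.elim
  rw [this]
  push_cast
  positivity

/-! ### The construction -/

section Construction

variable (A : Set ℕ)

/-- The set of `b` with `A - b` in the ultrafilter, within the positive integers. -/
def R : Set ℕ := {b | {c | b + c ∈ A} ∈ dens} ∩ {n | 1 ≤ n}

/-- Invariant of the construction. -/
def Inv (X : Finset ℕ × Finset ℕ) : Prop :=
  (∀ b ∈ X.1, b ∈ R A) ∧ (∀ c ∈ X.2, c ∈ R A) ∧ ∀ b ∈ X.1, ∀ c ∈ X.2, b + c ∈ A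

variable {A}

lemma cand_mem (hR : R A ∈ dens) (F : Finset ℕ) (hF : ∀ b ∈ F, b ∈ R A) :
    R A ∩ {c | ∀ b ∈ F, b + c ∈ A} ∈ dens := by
  refine Filter.inter_mem hR ?_
  have : {c | ∀ b ∈ F, b + c ∈ A} = ⋂ b ∈ F, {c | b + c ∈ A} := by
    ext c; simp
  rw [this]
  exact (Filter.biInter_finset_mem F).2 fun b hb => (hF b hb).1

/-- Extending one side. -/
lemma extend (hR : R A ∈ dens) {H : ℕ → ℕ} (hH : LittleO H) (F G : Finset ℕ)
    (hF : ∀ b ∈ F, b ∈ R A) (hG : ∀ c ∈ G, c ∈ R A) (hFG : ∀ b ∈ F, ∀ c ∈ G, b + c ∈ A) (K : ℕ) :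
    ∃ G' : Finset ℕ, G ⊆ G' ∧ (∀ c ∈ G', c ∈ R A) ∧ (∀ b ∈ F, ∀ c ∈ G', b + c ∈ A) ∧
      ∃ N, K ≤ N ∧ H N ≤ count (G' : Set ℕ) N := by
  classical
  obtain ⟨N, hKN, hN⟩ := exists_large (cand_mem hR F hF) hH K
  set D := R A ∩ {c | ∀ b ∈ F, b + c ∈ A} with hD
  refine ⟨G ∪ (finite_inter D N).toFinset, Finset.subset_union_left, ?_, ?_, N, hKN, ?_⟩
  · intro c hc
    rcases Finset.mem_union.1 hc with h | h
    · exact hG c h
    · exact ((finite_inter D N).mem_toFinset.1 h).1.1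
  · intro b hb c hc
    rcases Finset.mem_union.1 hc with h | h
    · exact hFG b hb c h
    · exact ((finite_inter D N).mem_toFinset.1 h).1.2 b hb
  · refine hN.trans ?_
    unfold count
    refine Set.ncard_le_ncard ?_ (finite_inter _ _)
    intro x hx
    refine ⟨?_, hx.2⟩
    rw [Finset.coe_union]
    right
    exact (finite_inter D N).mem_toFinset.2 hx

lemma step (hR : R A ∈ dens) {H : ℕ → ℕ} (hH : LittleO H) (X : Finset ℕ × Finset ℕ)
    (hX : Inv A X) (K : ℕ) :
    ∃ Y : Finset ℕ × Finset ℕ, Inv A Y ∧ X.1 ⊆ Y.1 ∧ X.2 ⊆ Y.2 ∧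
      (∃ N, K ≤ N ∧ H N ≤ count (Y.1 : Set ℕ) N) ∧
      (∃ N, K ≤ N ∧ H N ≤ count (Y.2 : Set ℕ) N) := by
  obtain ⟨h1, h2, h3⟩ := hX
  obtain ⟨G', g1, g2, g3, g4⟩ := extend hR hH X.1 X.2 h1 h2 h3 K
  obtain ⟨F', f1, f2, f3, f4⟩ := extend hR hH G' X.1 g2 h1
    (fun b hb c hc => by rw [add_comm]; exact g3 c hc b hb) K
  exact ⟨(F', G'), ⟨f2, g2, fun b hb c hc => by rw [add_comm]; exact f3 c hc b hb⟩, f1, g1, f4, g4⟩

/-- The sequence of pairs of finite sets. -/
noncomputable def seq (hR : R A ∈ dens) {H : ℕ → ℕ} (hH : LittleO H) :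
    ℕ → {X : Finset ℕ × Finset ℕ // Inv A X}
  | 0 => ⟨(∅, ∅), by constructor <;> simp⟩
  | k + 1 => ⟨(step hR hH (seq hR hH k).1 (seq hR hH k).2 k).choose,
      (step hR hH (seq hR hH k).1 (seq hR hH k).2 k).choose_spec.1⟩

lemma seq_succ (hR : R A ∈ dens) {H : ℕ → ℕ} (hH : LittleO H) (k : ℕ) :
    (seq hR hH k).1.1 ⊆ (seq hR hH (k + 1)).1.1 ∧
    (seq hR hH k).1.2 ⊆ (seq hR hH (k + 1)).1.2 ∧
      (∃ N, k ≤ N ∧ H N ≤ count ((seq hR hH (k + 1)).1.1 : Set ℕ) N) ∧
      (∃ N, k ≤ N ∧ H N ≤ count ((seq hR hH (k + 1)).1.2 : Set ℕ) N) :=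
  (step hR hH (seq hR hH k).1 (seq hR hH k).2 k).choose_spec.2

lemma main_construction (hR : R A ∈ dens) {H : ℕ → ℕ} (hH : LittleO H) :
    ∃ B C : Set ℕ, (∀ b ∈ B, 1 ≤ b) ∧ (∀ c ∈ C, 1 ≤ c) ∧ (∀ b ∈ B, ∀ c ∈ C, b + c ∈ A) ∧
      (∃ᶠ N in atTop, H N ≤ count B N) ∧ (∃ᶠ N in atTop, H N ≤ count C N) := by
  have m1 : Monotone fun k => (seq hR hH k).1.1 :=
    monotone_nat_of_le_succ fun k => (seq_succ hR hH k).1
  have m2 : Monotone fun k => (seq hR hH k).1.2 :=
    monotone_nat_of_le_succ fun k => (seq_succ hR hH k).2.1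
  refine ⟨{b | ∃ k, b ∈ (seq hR hH k).1.1}, {c | ∃ k, c ∈ (seq hR hH k).1.2}, ?_, ?_, ?_, ?_, ?_⟩
  · rintro b ⟨k, hk⟩
    exact ((seq hR hH k).2.1 b hk).2
  · rintro c ⟨k, hk⟩
    exact ((seq hR hH k).2.2.1 c hk).2
  · rintro b ⟨k, hk⟩ c ⟨l, hl⟩
    have hk' : b ∈ (seq hR hH (max k l)).1.1 := m1 (le_max_left k l) hk
    have hl' : c ∈ (seq hR hH (max k l)).1.2 := m2 (le_max_right k l) hl
    exact (seq hR hH (max k l)).2.2.2 b hk' c hl'
  · rw [frequently_atTop]
    intro K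
    obtain ⟨N, hN, hN'⟩ := (seq_succ hR hH K).2.2.1
    refine ⟨N, hN, hN'.trans (count_mono ?_ N)⟩
    intro x hx
    exact ⟨K + 1, hx⟩
  · rw [frequently_atTop]
    intro K
    obtain ⟨N, hN, hN'⟩ := (seq_succ hR hH K).2.2.2
    refine ⟨N, hN, hN'.trans (count_mono ?_ N)⟩
    intro x hx
    exact ⟨K + 1, hx⟩

end Construction

lemma sqrt_littleO : LittleO Nat.sqrt := by
  intro ε hε
  obtain ⟨M, hM⟩ := exists_nat_gt (1 / ε)
  filter_upwards [eventually_ge_atTop (M ^ 2)] with N hN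
  have h1 : M ≤ Nat.sqrt N := by rw [Nat.le_sqrt']; exact hN
  have h2 : Nat.sqrt N * Nat.sqrt N ≤ N := Nat.sqrt_le N
  have h3 : (M : ℝ) ≤ Nat.sqrt N := by exact_mod_cast h1
  have h4 : (Nat.sqrt N : ℝ) * Nat.sqrt N ≤ N := by exact_mod_cast h2
  have h5 : 1 ≤ ε * Nat.sqrt N := by
    have : 1 / ε ≤ Nat.sqrt N := by linarith
    rw [div_le_iff₀ hε] at this
    linarith
  have h6 : (0 : ℝ) ≤ Nat.sqrt N := by positivity
  nlinarith

lemma sqrt_tendsto : Tendsto Nat.sqrt atTop atTop := by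
  rw [tendsto_atTop]
  intro b
  filter_upwards [eventually_ge_atTop (b ^ 2)] with N hN
  rw [Nat.le_sqrt']
  exact hN

lemma infinite_of_frequently {B : Set ℕ} (h : ∃ᶠ N in atTop, Nat.sqrt N ≤ count B N) :
    B.Infinite := by
  intro hfin
  have h1 : ∀ N, count B N ≤ B.ncard := fun N => Set.ncard_le_ncard Set.inter_subset_left hfin
  have h2 := h.and_eventually (sqrt_tendsto.eventually_gt_atTop B.ncard)
  obtain ⟨N, hN1, hN2⟩ := h2.exists
  have := h1 N
  omega

/-- Main theorem: for every `H = o(N)` and every finite colouring. -/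
lemma main {H : ℕ → ℕ} (hH : LittleO H) (r : ℕ) (χ : ℕ → Fin r) :
    ∃ B C : Set ℕ, MonoSumset χ B C ∧
      (∃ᶠ N in atTop, H N ≤ count B N) ∧ (∃ᶠ N in atTop, H N ≤ count C N) := by
  -- the colour of the sum of the ultrafilter with itself
  have hcol : ∀ b : ℕ, ∃ i : Fin r, {c | χ (b + c) = i} ∈ dens := by
    intro b
    obtain ⟨i, hi⟩ := (Ultrafilter.eventually_exists_iff (f := dens)
      (P := fun (i : Fin r) c => χ (b + c) = i)).1 (Filter.Eventually.of_forall fun c => ⟨_, rfl⟩)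
    exact ⟨i, hi⟩
  obtain ⟨i, hi⟩ : ∃ i : Fin r, {b | {c | χ (b + c) = i} ∈ dens} ∈ dens := by
    obtain ⟨i, hi⟩ := (Ultrafilter.eventually_exists_iff (f := dens)
      (P := fun (i : Fin r) b => {c | χ (b + c) = i} ∈ dens)).1
        (Filter.Eventually.of_forall hcol)
    exact ⟨i, hi⟩
  have hR : R {n | χ n = i} ∈ dens := Filter.inter_mem hi pos_mem
  have hH' : LittleO fun N => max (H N) (Nat.sqrt N) := by
    intro ε hε
    filter_upwards [hH ε hε, sqrt_littleO ε hε] with N h1 h2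
    push_cast
    exact max_le h1 h2
  obtain ⟨B, C, hB, hC, hBC, fB, fC⟩ := main_construction hR hH'
  refine ⟨B, C, ⟨?_, ?_, hB, hC, i, hBC⟩, ?_, ?_⟩
  · exact infinite_of_frequently (fB.mono fun N hN => (le_max_right _ _).trans hN)
  · exact infinite_of_frequently (fC.mono fun N hN => (le_max_right _ _).trans hN)
  · exact fB.mono fun N hN => (le_max_left _ _).trans hN
  · exact fC.mono fun N hN => (le_max_left _ _).trans hN

/-- (i) There is a growth function `H` for which no 2-colouring has the property asked for.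
(ii) More strongly, for every `H = o(N)` and every colouring of the positive integers with finitely
many colours there are infinite `B`, `C` with `B + C` monochromatic such that `B(N) ≥ H(N)` for
infinitely many `N` and `C(N) ≥ H(N)` for infinitely many `N`. -/
theorem result :
    (∃ H : ℕ → ℕ, IsGrowth H ∧ ¬ HasSlowColouring H) ∧
    ∀ H : ℕ → ℕ, LittleO H → ∀ (r : ℕ) (χ : ℕ → Fin r), ∃ B C : Set ℕ, MonoSumset χ B C ∧
      (∃ᶠ N in atTop, H N ≤ count B N) ∧ (∃ᶠ N in atTop, H N ≤ count C N) := by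
  refine ⟨⟨Nat.sqrt, ⟨fun a b h => Nat.sqrt_le_sqrt h, sqrt_tendsto⟩, ?_⟩,
    fun H hH r χ => main hH r χ⟩
  rintro ⟨χ, hχ⟩
  obtain ⟨B, C, h, fB, _⟩ := main sqrt_littleO 2 χ
  obtain ⟨N, h1, h2⟩ := (fB.and_eventually (hχ B C h)).exists
  have := le_max_left (count B N) (count C N)
  omega

end Pool.Agent.Results.MP_870dc7_co.FastSumsetsInfinitelyOften
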